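import Pool.Agent.Helper62.DSH.StA

/-!
# Project DSH (MP_087a81_gt), module DIM: alternating tensors of degree `j` form a space of dimension at most `n.choose j`
-/

set_option autoImplicit false

open Helper62.LH Helper62.DSH

namespace Pool.Agent.Helper76.DSH

private theorem alt_sum {n j M : ℕ} (t : Fin M → Tn n j) (ht : ∀ i, Altn (t i)) (c : Fin M → ℝ) :
    Altn (∑ i, c i • t i) := by
  intro I σ
  rw [Finset.sum_apply, Finset.sum_apply, Finset.mul_sum]
  refine Finset.sum_congr rfl (fun i _ => ?_)
  rw [Pi.smul_apply, Pi.smul_apply, ht i I σ, smul_eq_mul, smul_eq_mul]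
  ring

private theorem alt_zero {n j : ℕ} (u : Tn n j) (hu : Altn u)
    (h : ∀ (S : Finset (Fin n)) (hS : S.card = j), u (S.orderEmbOfFin hS) = 0) : u = 0 := by
  funext I
  rw [Pi.zero_apply]
  by_cases hI : Function.Injective I
  · have hS : (Finset.univ.image I).card = j := by
      rw [Finset.card_image_of_injective _ hI, Finset.card_univ, Fintype.card_fin]
    have hex : ∀ k, ∃ l, (Finset.univ.image I).orderEmbOfFin hS l = I k := by
      intro k
      have h1 : I k ∈ Set.range ((Finset.univ.image I).orderEmbOfFin hS) := by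
        rw [Finset.range_orderEmbOfFin]
        exact Finset.mem_coe.mpr (Finset.mem_image_of_mem I (Finset.mem_univ k))
      exact h1
    choose σ hσ using hex
    have hinj : Function.Injective σ := by
      intro a b hab
      apply hI
      rw [← hσ a, ← hσ b, hab]
    have hbij : Function.Bijective σ := Finite.injective_iff_bijective.mp hinj
    have e : I = ((Finset.univ.image I).orderEmbOfFin hS : Fin j → Fin n) ∘
        (Equiv.ofBijective σ hbij) := by
      funext k
      exact (hσ k).symm
    rw [e, hu, h, mul_zero]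
  · rw [Function.Injective] at hI
    push Not at hI
    obtain ⟨a, b, hab, hne⟩ := hI
    have e : I ∘ (Equiv.swap a b) = I := by
      funext k
      rw [Function.comp_apply]
      rcases eq_or_ne k a with rfl | h1
      · rw [Equiv.swap_apply_left, hab]
      · rcases eq_or_ne k b with rfl | h2
        · rw [Equiv.swap_apply_right, hab]
        · rw [Equiv.swap_apply_of_ne_of_ne h1 h2]
    have h1 := hu I (Equiv.swap a b)
    rw [e, Equiv.Perm.sign_swap hne] at h1
    push_cast at h1
    linarith

theorem hDim : TDim := by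
  intro n j t ht
  set L : (Fin (n.choose j + 1) → ℝ) →ₗ[ℝ] ({S : Finset (Fin n) // S.card = j} → ℝ) :=
    { toFun := fun c S => ∑ i, c i * t i (S.1.orderEmbOfFin S.2)
      map_add' := by
        intro c d
        funext S
        rw [Pi.add_apply, ← Finset.sum_add_distrib]
        exact Finset.sum_congr rfl (fun i _ => by rw [Pi.add_apply]; ring)
      map_smul' := by
        intro r c
        funext S
        rw [Pi.smul_apply, smul_eq_mul, Finset.mul_sum]
        exact Finset.sum_congr rfl (fun i _ => by
          rw [Pi.smul_apply, smul_eq_mul, RingHom.id_apply]; ring) } with hL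
  have hker : LinearMap.ker L ≠ ⊥ := by
    apply LinearMap.ker_ne_bot_of_finrank_lt
    rw [Module.finrank_pi, Module.finrank_pi, Fintype.card_finset_len, Fintype.card_fin,
      Fintype.card_fin]
    exact Nat.lt_succ_self _
  obtain ⟨c, hc, hc0⟩ := Submodule.exists_mem_ne_zero_of_ne_bot hker
  have hLc : L c = 0 := LinearMap.mem_ker.mp hc
  have hz : ∑ i, c i • t i = 0 := by
    apply alt_zero _ (alt_sum t ht c)
    intro S hS
    have h1 := congrFun hLc ⟨S, hS⟩
    rw [Finset.sum_apply]
    exact h1
  have hpos : 0 < ∑ i, c i ^ 2 := by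
    obtain ⟨i, hi⟩ := Function.ne_iff.mp hc0
    refine Finset.sum_pos' (fun i _ => sq_nonneg _) ⟨i, Finset.mem_univ i, ?_⟩
    have : c i ≠ 0 := hi
    positivity
  refine ⟨fun i => c i / √(∑ i, c i ^ 2), ?_, ?_⟩
  · simp only [div_pow]
    rw [← Finset.sum_div, Real.sq_sqrt hpos.le, div_self hpos.ne']
  · have e : ∑ i, (c i / √(∑ i, c i ^ 2)) • t i = (√(∑ i, c i ^ 2))⁻¹ • ∑ i, c i • t i := by
      rw [Finset.smul_sum]
      refine Finset.sum_congr rfl (fun i _ => ?_)
      rw [smul_smul, div_eq_inv_mul]
    rw [e, hz, smul_zero]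

end Pool.Agent.Helper76.DSH
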